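import Pool.Agent.W114.HL.Stm
import Pool.Agent.H951R4.OD.M
import Pool.Agent.H951R4.OD.B6
import Pool.Agent.H951R4.OD.A1

set_option autoImplicit false

/-! # HL-DM: Mertens type sums for the data -/

namespace Pool.Agent.W230.HL

open Finset
open Pool.Agent.H951R4.OD (ch PI ch_val ch_mul_left)
open Pool.Agent.W114.HL

theorem ch_pm {D : ℤ} {q : ℕ} (hq : q.Prime) (h2 : q ≠ 2) (h : ¬ (q : ℤ) ∣ D) :
    ch D q = 1 ∨ ch D q = -1 := by
  have hodd : q % 2 = 1 := (hq.eq_two_or_odd).resolve_left h2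
  have hne : ch D q ≠ 0 := by
    unfold Pool.Agent.H951R4.OD.ch
    rw [if_pos hodd]
    have hg : D.gcd q = 1 := by
      rw [Int.gcd_comm]
      exact (Int.isCoprime_iff_gcd_eq_one).1
        (((Nat.prime_iff_prime_int.1 hq).coprime_iff_not_dvd).2 h)
    exact_mod_cast jacobiSym.ne_zero hg
  exact (ch_val D q).resolve_left hne

theorem ch_neg_one {q : ℕ} (hq : q.Prime) (h2 : q ≠ 2) :
    ch (-1) q = if q % 4 = 1 then 1 else -1 := by
  have hodd : q % 2 = 1 := (hq.eq_two_or_odd).resolve_left h2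
  unfold Pool.Agent.H951R4.OD.ch
  rw [if_pos hodd, jacobiSym.at_neg_one (Nat.odd_iff.2 hodd)]
  have h4 : q % 4 = 1 ∨ q % 4 = 3 := by omega
  rcases h4 with h | h
  · rw [ZMod.χ₄_nat_one_mod_four h]
    simp [h]
  · rw [ZMod.χ₄_nat_three_mod_four h]
    simp [h]

theorem badsum {c0 : ℕ} (hc0 : 0 < c0) (y z : ℕ) :
    ∑ q ∈ PI y z, (if q ∣ c0 then 1 / (q : ℝ) else 0) ≤ c0 := by
  rw [← Finset.sum_filter]
  have h6 : ∀ q ∈ (PI y z).filter (fun q => q ∣ c0), 1 / (q : ℝ) ≤ (1 : ℝ) := by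
    intro q hq
    simp only [PI, mem_filter, mem_Ioc] at hq
    have : (1 : ℝ) ≤ q := by exact_mod_cast hq.1.2.one_lt.le
    rw [div_le_one (by linarith)]
    exact this
  refine (Finset.sum_le_sum h6).trans ?_
  rw [Finset.sum_const, nsmul_eq_mul, mul_one]
  have h7 : (PI y z).filter (fun q => q ∣ c0) ⊆ Ioc 0 c0 := by
    intro q hq
    simp only [PI, mem_filter, mem_Ioc] at hq
    rw [mem_Ioc]
    exact ⟨hq.1.2.pos, Nat.le_of_dvd hc0 hq.2⟩
  have h8 := Finset.card_le_card h7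
  rw [Nat.card_Ioc] at h8
  exact_mod_cast h8

theorem not_sq_neg {D : ℤ} (h : D < 0) : ¬ IsSquare D := by
  rintro ⟨r, hr⟩
  nlinarith [mul_self_nonneg r]

theorem not_sq_nat {n : ℕ} (h : ¬ IsSquare n) : ¬ IsSquare (n : ℤ) := by
  rintro ⟨r, hr⟩
  apply h
  refine ⟨r.natAbs, ?_⟩
  have : ((r.natAbs * r.natAbs : ℕ) : ℤ) = (n : ℤ) := by
    rw [hr, Nat.cast_mul]
    exact Int.natAbs_mul_self' r
  exact_mod_cast this.symm

theorem not_sq_b (lam : ℕ) : ¬ IsSquare (-1 * (1 - 4 * (lam : ℤ))) := by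
  rintro ⟨r, hr⟩
  have h1 : (r * r) % 4 = 3 := by rw [← hr]; omega
  have h2 : r % 4 = 0 ∨ r % 4 = 1 ∨ r % 4 = 2 ∨ r % 4 = 3 := by omega
  rw [Int.mul_emod] at h1
  rcases h2 with h | h | h | h <;> rw [h] at h1 <;> norm_num at h1

theorem not_sq_c {lam : ℕ} (h2 : 2 ≤ lam) (h : ¬ IsSquare lam) :
    ¬ IsSquare (-1 * ((lam : ℤ) * (1 - 4 * (lam : ℤ)))) := by
  rintro ⟨r, hr⟩
  have hco : IsCoprime (lam : ℤ) (4 * (lam : ℤ) - 1) := ⟨4, -1, by ring⟩
  obtain ⟨a, ha | ha⟩ := Int.sq_of_isCoprime (c := r) hco (by rw [sq, ← hr]; ring)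
  · exact not_sq_nat h ⟨a, by rw [ha, sq]⟩
  · have : (2 : ℤ) ≤ lam := by exact_mod_cast h2
    nlinarith [sq_nonneg a]

theorem bad_part {D : ℤ} {c0 : ℕ} (hc0 : 0 < c0) (hD : ¬ IsSquare D)
    (h : ∀ q : ℕ, q.Prime → ¬ q ∣ c0 → q ≠ 2 ∧ ¬ (q : ℤ) ∣ D) :
    ∃ C : ℝ, ∀ y z : ℕ, 2 ≤ y → y ≤ z →
    1 / 2 * Real.log (Real.log z / Real.log y) - C ≤
      ∑ p ∈ (PI y z).filter (fun p => ch D p = -1), 1 / (p : ℝ) := by
  obtain ⟨C1, hC1, h1⟩ := Pool.Agent.H951R4.OD.mert_int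
  obtain ⟨C2, hC2, h2⟩ := Pool.Agent.H951R4.OD.char_sum_fixed D hD
  refine ⟨1 / 2 * (C1 + C2) + c0, fun y z hy hyz => ?_⟩
  have h3 := (abs_le.1 (h1 y z hy hyz)).1
  have h4 := (abs_le.1 (h2 y z)).2
  have h5 := badsum hc0 y z
  rw [Finset.sum_filter]
  have hpt : ∀ q ∈ PI y z, 1 / 2 * (1 / (q : ℝ)) - 1 / 2 * (ch D q / q) -
      (if q ∣ c0 then 1 / (q : ℝ) else 0) ≤ (if ch D q = -1 then 1 / (q : ℝ) else 0) := by
    intro q hq
    simp only [PI, mem_filter, mem_Ioc] at hq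
    have hq0 : (0 : ℝ) < q := by exact_mod_cast hq.2.pos
    have hi : 0 < 1 / (q : ℝ) := by positivity
    rw [div_eq_mul_one_div (ch D q)]
    generalize 1 / (q : ℝ) = t at hi ⊢
    by_cases hqc : q ∣ c0
    · rw [if_pos hqc]
      rcases ch_val D q with h | h | h <;> rw [h] <;> norm_num <;> linarith
    · rw [if_neg hqc]
      obtain ⟨ha, hb⟩ := h q hq.2 hqc
      rcases ch_pm hq.2 ha hb with h | h
      · rw [h]; norm_num
      · rw [h, if_pos rfl]; linarith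
  have h6 := Finset.sum_le_sum hpt
  rw [Finset.sum_sub_distrib, Finset.sum_sub_distrib, ← Finset.mul_sum, ← Finset.mul_sum] at h6
  linarith

theorem dm : S_DM := by
  intro lam h2 hsq s hs
  have hlam : (2 : ℤ) ≤ lam := by exact_mod_cast h2
  have hc0 : 0 < 2 * lam * (4 * lam - 1) := by
    apply Nat.mul_pos <;> omega
  have hprime : ∀ q : ℕ, q.Prime → ¬ q ∣ 2 * lam * (4 * lam - 1) →
      q ≠ 2 ∧ ¬ (q : ℤ) ∣ (lam : ℤ) ∧ ¬ (q : ℤ) ∣ 1 - 4 * (lam : ℤ) := by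
    intro q hq hqc
    refine ⟨?_, ?_, ?_⟩
    · rintro rfl
      exact hqc (Dvd.dvd.mul_right (dvd_mul_right 2 lam) _)
    · intro h
      rw [Int.natCast_dvd_natCast] at h
      exact hqc (Dvd.dvd.mul_right (Dvd.dvd.mul_left h 2) _)
    · intro h
      have h1 : (q : ℤ) ∣ ((4 * lam - 1 : ℕ) : ℤ) := by
        rw [Nat.cast_sub (by omega)]
        push_cast
        have : 4 * (lam : ℤ) - 1 = -(1 - 4 * (lam : ℤ)) := by ring
        rw [this]
        exact (dvd_neg).2 h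
      rw [Int.natCast_dvd_natCast] at h1
      exact hqc (Dvd.dvd.mul_left h1 _)
  obtain ⟨C1, hC1, h1⟩ := Pool.Agent.H951R4.OD.mert_int
  have n1 : ¬ IsSquare (-1 : ℤ) := not_sq_neg (by norm_num)
  have n2 : ¬ IsSquare (lam : ℤ) := not_sq_nat hsq
  have n3 : ¬ IsSquare (1 - 4 * (lam : ℤ)) := not_sq_neg (by linarith)
  have n4 : ¬ IsSquare (-1 * (lam : ℤ)) := not_sq_neg (by linarith)
  have n5 := not_sq_b lam
  have n6 : ¬ IsSquare ((lam : ℤ) * (1 - 4 * (lam : ℤ))) := not_sq_neg (by nlinarith)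
  have n7 := not_sq_c h2 hsq
  refine ⟨?_, ?_, ?_⟩
  · obtain ⟨C2, hC2, h2⟩ := Pool.Agent.H951R4.OD.char_sum_fixed _ n3
    refine ⟨C1 + C2, fun y z hy hyz => ?_⟩
    change |∑ q ∈ PI y z, (1 + ch (1 - 4 * (lam : ℤ)) q) / q -
      Real.log (Real.log z / Real.log y)| ≤ C1 + C2
    have e : ∑ q ∈ PI y z, (1 + ch (1 - 4 * (lam : ℤ)) q) / q -
        Real.log (Real.log z / Real.log y) =
        (∑ q ∈ PI y z, (1 : ℝ) / q - Real.log (Real.log z / Real.log y)) +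
          ∑ q ∈ PI y z, ch (1 - 4 * (lam : ℤ)) q / q := by
      simp only [add_div, sum_add_distrib]
      ring
    rw [e]
    exact (abs_add_le _ _).trans (add_le_add (h1 y z hy hyz) (h2 y z))
  · refine bad_part hc0 ?_ ?_
    · rcases hs with rfl | rfl
      · rw [one_mul]; exact n2
      · exact n4
    · intro q hq hqc
      obtain ⟨ha, hb, -⟩ := hprime q hq hqc
      refine ⟨ha, ?_⟩
      rcases hs with rfl | rfl
      · rw [one_mul]; exact hb
      · rw [neg_mul, one_mul, dvd_neg]; exact hb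
  · obtain ⟨D1, hD1, d1⟩ := Pool.Agent.H951R4.OD.char_sum_fixed _ n1
    obtain ⟨D2, hD2, d2⟩ := Pool.Agent.H951R4.OD.char_sum_fixed _ n2
    obtain ⟨D3, hD3, d3⟩ := Pool.Agent.H951R4.OD.char_sum_fixed _ n3
    obtain ⟨D4, hD4, d4⟩ := Pool.Agent.H951R4.OD.char_sum_fixed _ n4
    obtain ⟨D5, hD5, d5⟩ := Pool.Agent.H951R4.OD.char_sum_fixed _ n5
    obtain ⟨D6, hD6, d6⟩ := Pool.Agent.H951R4.OD.char_sum_fixed _ n6
    obtain ⟨D7, hD7, d7⟩ := Pool.Agent.H951R4.OD.char_sum_fixed _ n7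
    refine ⟨C1 + D1 + D2 + D3 + D4 + D5 + D6 + D7 + ((2 * lam * (4 * lam - 1) : ℕ) : ℝ),
      fun y z hy hyz => ?_⟩
    have h5 := badsum hc0 y z
    have e0 := (abs_le.1 (h1 y z hy hyz)).1
    have e1 := abs_le.1 (d1 y z)
    have e2 := abs_le.1 (d2 y z)
    have e3 := abs_le.1 (d3 y z)
    have e4 := abs_le.1 (d4 y z)
    have e5 := abs_le.1 (d5 y z)
    have e6 := abs_le.1 (d6 y z)
    have e7 := abs_le.1 (d7 y z)
    rw [Finset.sum_filter]
    have hpt : ∀ q ∈ PI y z, 1 / 8 * (1 / (q : ℝ) + ch (-1) q / q - ch (lam : ℤ) q / q +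
        ch (1 - 4 * (lam : ℤ)) q / q - ch (-1 * (lam : ℤ)) q / q +
        ch (-1 * (1 - 4 * (lam : ℤ))) q / q - ch ((lam : ℤ) * (1 - 4 * (lam : ℤ))) q / q -
        ch (-1 * ((lam : ℤ) * (1 - 4 * (lam : ℤ)))) q / q) -
        (if q ∣ 2 * lam * (4 * lam - 1) then 1 / (q : ℝ) else 0) ≤
        (if q % 4 = 1 ∧ ch (lam : ℤ) q = -1 ∧ ch (1 - 4 * (lam : ℤ)) q = 1 then 1 / (q : ℝ)
          else 0) := by
      intro q hq
      simp only [PI, mem_filter, mem_Ioc] at hq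
      have hq0 : (0 : ℝ) < q := by exact_mod_cast hq.2.pos
      have hi : 0 < 1 / (q : ℝ) := by positivity
      have e : 1 / 8 * (1 / (q : ℝ) + ch (-1) q / q - ch (lam : ℤ) q / q +
        ch (1 - 4 * (lam : ℤ)) q / q - ch (-1 * (lam : ℤ)) q / q +
        ch (-1 * (1 - 4 * (lam : ℤ))) q / q - ch ((lam : ℤ) * (1 - 4 * (lam : ℤ))) q / q -
        ch (-1 * ((lam : ℤ) * (1 - 4 * (lam : ℤ)))) q / q) =
        (1 / 8 * (1 + ch (-1) q) * (1 - ch (lam : ℤ) q) * (1 + ch (1 - 4 * (lam : ℤ)) q)) *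
          (1 / (q : ℝ)) := by
        rw [ch_mul_left (-1) (lam : ℤ), ch_mul_left (-1) (1 - 4 * (lam : ℤ)),
          ch_mul_left (-1) ((lam : ℤ) * (1 - 4 * (lam : ℤ))),
          ch_mul_left (lam : ℤ) (1 - 4 * (lam : ℤ))]
        ring
      rw [e]
      by_cases hqc : q ∣ 2 * lam * (4 * lam - 1)
      · rw [if_pos hqc]
        have hle : 1 / 8 * (1 + ch (-1) q) * (1 - ch (lam : ℤ) q) *
            (1 + ch (1 - 4 * (lam : ℤ)) q) ≤ 1 := by
          rcases ch_val (-1) q with h | h | h <;> rcases ch_val (lam : ℤ) q with h' | h' | h' <;>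
            rcases ch_val (1 - 4 * (lam : ℤ)) q with h'' | h'' | h'' <;>
            rw [h, h', h''] <;> norm_num
        have h9 : (1 / 8 * (1 + ch (-1) q) * (1 - ch (lam : ℤ) q) *
            (1 + ch (1 - 4 * (lam : ℤ)) q)) * (1 / (q : ℝ)) - 1 / (q : ℝ) ≤ 0 := by
          have := mul_le_mul_of_nonneg_right hle hi.le
          linarith
        refine h9.trans ?_
        split_ifs
        · exact hi.le
        · exact le_rfl
      · rw [if_neg hqc, sub_zero]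
        obtain ⟨ha, hb, hc⟩ := hprime q hq.2 hqc
        have h4 := ch_neg_one hq.2 ha
        by_cases hm : q % 4 = 1
        · rw [if_pos hm] at h4
          rcases ch_pm hq.2 ha hb with h' | h' <;> rcases ch_pm hq.2 ha hc with h'' | h'' <;>
            rw [h4, h', h''] <;> norm_num [hm]
        · rw [if_neg hm] at h4
          rw [h4, if_neg (fun h => hm h.1)]
          norm_num
    have h6 := Finset.sum_le_sum hpt
    rw [Finset.sum_sub_distrib, ← Finset.mul_sum, Finset.sum_sub_distrib, Finset.sum_sub_distrib,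
      Finset.sum_add_distrib, Finset.sum_sub_distrib, Finset.sum_add_distrib,
      Finset.sum_sub_distrib, Finset.sum_add_distrib] at h6
    linarith [e1.1, e2.2, e3.1, e4.2, e5.1, e6.2, e7.2]

end Pool.Agent.W230.HL
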