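import Pool.Agent.W428.MOT.Stm
import Pool.Agent.W565.SMZC

/-!
Part ZCF of the project MT (owner helper428): the counting series of the lattice points of a
rational polyhedron in the orthant, formal version. Adaptation of `Pool.Agent.W565.SMZC`
(helper565), whose combinatorial lemmas are used.
-/

set_option autoImplicit false

namespace Pool.Agent.W230.MTZCF

open Pool.Agent.W426.SM
open Pool.Agent.W565.SMZC (L LN Pol Allowed LN_add finite_of_cone exists_allowed)
open Pool.Agent.W428.MOT (Phi)

variable {n : ℕ} {ι : Type}

/-- the weight of `u` -/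
def bt (β : Fin n → ℕ) (u : Fin n → ℕ) : ℕ := ∑ i, β i * u i

/-- the size of `u` -/
def sz (u : Fin n → ℕ) : ℕ := ∑ i, u i

/-- the factor of a ray -/
noncomputable def fac (β : Fin n → ℕ) (a : Fin n → ℕ) : PowerSeries (PowerSeries ℤ) :=
  1 - PowerSeries.C (PowerSeries.X ^ (sz a)) * PowerSeries.X ^ (bt β a)

/-- polynomials as power series -/
noncomputable def emb : Polynomial (Polynomial ℤ) →+* PowerSeries (PowerSeries ℤ) :=
  (PowerSeries.map (Polynomial.coeToPowerSeries.ringHom (R := ℤ))).comp
    (Polynomial.coeToPowerSeries.ringHom (R := Polynomial ℤ))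

theorem coeff_emb (P : Polynomial (Polynomial ℤ)) (M d : ℕ) :
    PowerSeries.coeff d (PowerSeries.coeff M (emb P)) = (P.coeff M).coeff d := by
  simp [emb]

/-- the polynomial of a ray -/
noncomputable def pfac (β : Fin n → ℕ) (a : Fin n → ℕ) : Polynomial (Polynomial ℤ) :=
  1 - Polynomial.C (Polynomial.X ^ (sz a)) * Polynomial.X ^ (bt β a)

theorem emb_pfac (β : Fin n → ℕ) (a : Fin n → ℕ) : emb (pfac β a) = fac β a := by
  simp [emb, pfac, fac]

theorem emb_list (β : Fin n → ℕ) (l : List (Fin n → ℕ)) :
    emb (l.map (pfac β)).prod = (l.map (fac β)).prod := by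
  rw [map_list_prod, List.map_map]
  congr 2
  funext a
  simp [emb_pfac]

/-- good series -/
def Gd (β : Fin n → ℕ) (h : ι → Fin n → ℤ) (E : Finset ι)
    (F : PowerSeries (PowerSeries ℤ)) : Prop :=
  ∃ (l : List (Fin n → ℕ)) (P : Polynomial (Polynomial ℤ)), (∀ a ∈ l, Allowed h E a) ∧
    F * (l.map (fac β)).prod = emb P

theorem Gd.zero {β : Fin n → ℕ} {h : ι → Fin n → ℤ} {E : Finset ι} : Gd β h E 0 :=
  ⟨[], 0, by simp, by simp⟩

theorem Gd.add {β : Fin n → ℕ} {h : ι → Fin n → ℤ} {E : Finset ι}
    {F G : PowerSeries (PowerSeries ℤ)}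
    (hF : Gd β h E F) (hG : Gd β h E G) : Gd β h E (F + G) := by
  obtain ⟨l1, P1, h1, e1⟩ := hF
  obtain ⟨l2, P2, h2, e2⟩ := hG
  refine ⟨l1 ++ l2, P1 * (l2.map (pfac β)).prod + P2 * (l1.map (pfac β)).prod, ?_, ?_⟩
  · intro a ha
    rcases List.mem_append.mp ha with ha | ha
    · exact h1 a ha
    · exact h2 a ha
  · rw [map_add, map_mul, map_mul, emb_list, emb_list, ← e1, ← e2, List.map_append,
      List.prod_append]
    ring

theorem Gd.sum {κ : Type} {β : Fin n → ℕ} {h : ι → Fin n → ℤ} {E : Finset ι} (s : Finset κ)
    (F : κ → PowerSeries (PowerSeries ℤ)) (hF : ∀ c ∈ s, Gd β h E (F c)) :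
    Gd β h E (∑ c ∈ s, F c) := by
  classical
  induction s using Finset.induction_on with
  | empty => rw [Finset.sum_empty]; exact Gd.zero
  | insert c s hc ih =>
    rw [Finset.sum_insert hc]
    exact (hF c (Finset.mem_insert_self _ _)).add
      (ih fun c' hc' => hF c' (Finset.mem_insert_of_mem hc'))

theorem Gd.mono {β : Fin n → ℕ} {h : ι → Fin n → ℤ} {E E' : Finset ι} (hE : E ⊆ E')
    {F : PowerSeries (PowerSeries ℤ)} (hF : Gd β h E' F) : Gd β h E F := by
  obtain ⟨l, P, h1, e1⟩ := hF
  exact ⟨l, P, fun a ha => ⟨(h1 a ha).1, (h1 a ha).2.1, fun j hj => (h1 a ha).2.2.1 j (hE hj),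
    (h1 a ha).2.2.2⟩, e1⟩

theorem Gd.ray {β : Fin n → ℕ} {h : ι → Fin n → ℤ} {E : Finset ι}
    {F : PowerSeries (PowerSeries ℤ)} {a : Fin n → ℕ}
    (ha : Allowed h E a) (hF : Gd β h E (fac β a * F)) : Gd β h E F := by
  obtain ⟨l, P, h1, e1⟩ := hF
  refine ⟨a :: l, P, ?_, ?_⟩
  · intro b hb
    rcases List.mem_cons.mp hb with hb | hb
    · rw [hb]; exact ha
    · exact h1 b hb
  · rw [← e1, List.map_cons, List.prod_cons]
    ring

/-! ### Coefficients -/

theorem fin_sz (d : ℕ) : ({u : Fin n → ℕ | sz u = d}).Finite := by
  apply (Fintype.piFinset fun _ : Fin n => Finset.range (d + 1)).finite_toSet.subset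
  intro u hu
  have hu : ∑ i, u i = d := hu
  rw [Finset.mem_coe, Fintype.mem_piFinset]
  intro i
  rw [Finset.mem_range]
  have : u i ≤ ∑ i, u i := Finset.single_le_sum (fun i _ => Nat.zero_le _) (Finset.mem_univ i)
  omega

/-- the finite set of all the vectors of size `d` and weight `M` -/
noncomputable def T (β : Fin n → ℕ) (M d : ℕ) : Finset (Fin n → ℕ) := by
  classical
  exact (fin_sz (n := n) d).toFinset.filter fun u => bt β u = M

theorem mem_T {β : Fin n → ℕ} {M d : ℕ} {u : Fin n → ℕ} :
    u ∈ T β M d ↔ sz u = d ∧ bt β u = M := by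
  classical
  simp [T]

/-- the series -/
noncomputable def Ph (β : Fin n → ℕ) (Q : Set (Fin n → ℕ)) : PowerSeries (PowerSeries ℤ) :=
  Phi (fun u => ∑ i, β i * u i) Q

theorem coeff_Ph (β : Fin n → ℕ) (Q : Set (Fin n → ℕ)) (M d : ℕ) :
    PowerSeries.coeff d (PowerSeries.coeff M (Ph β Q)) =
      ∑ u ∈ T β M d, Q.indicator (fun _ => (1 : ℤ)) u := by
  classical
  simp only [Ph, Phi, PowerSeries.coeff_mk]
  have : ({u | u ∈ Q ∧ ∑ i, β i * u i = M ∧ ∑ i, u i = d} : Set (Fin n → ℕ)) =
      ((T β M d).filter fun u => u ∈ Q : Finset (Fin n → ℕ)) := by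
    ext u
    simp only [Set.mem_ofPred_eq, Finset.coe_filter, mem_T, sz, bt]
    tauto
  rw [this, Set.ncard_coe_finset, Finset.card_filter]
  push_cast
  refine Finset.sum_congr rfl fun u _ => ?_
  simp [Set.indicator_apply]

/-- finite sets are good -/
theorem good_finite (β : Fin n → ℕ) (h : ι → Fin n → ℤ) (E : Finset ι) {Q : Set (Fin n → ℕ)}
    (hQ : Q.Finite) : Gd β h E (Ph β Q) := by
  classical
  refine ⟨[], ∑ u ∈ hQ.toFinset, Polynomial.monomial (bt β u) (Polynomial.monomial (sz u) 1),
    by simp, ?_⟩
  rw [List.map_nil, List.prod_nil, mul_one]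
  ext M d
  rw [coeff_Ph, coeff_emb]
  simp only [Polynomial.finsetSum_coeff, Polynomial.coeff_monomial]
  have h1 : ∑ u ∈ T β M d, Q.indicator (fun _ => (1 : ℤ)) u =
      ((T β M d).filter fun u => u ∈ Q).card := by
    rw [Finset.card_filter]
    push_cast
    refine Finset.sum_congr rfl fun u _ => ?_
    simp [Set.indicator_apply]
  have h2 : ∑ u ∈ hQ.toFinset, (if bt β u = M then (Polynomial.monomial (sz u) (1 : ℤ)) else
      0 : Polynomial ℤ).coeff d = (hQ.toFinset.filter fun u => sz u = d ∧ bt β u = M).card := by
    rw [Finset.card_filter]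
    push_cast
    refine Finset.sum_congr rfl fun u _ => ?_
    by_cases h3 : bt β u = M
    · by_cases h4 : sz u = d
      · simp [h3, h4]
      · simp [h3, h4, Polynomial.coeff_monomial]
    · simp [h3]
  rw [h1, h2]
  congr 2
  ext u
  simp only [Finset.mem_filter, mem_T, Set.Finite.mem_toFinset]
  tauto

/-- translates -/
theorem Ph_shift (β : Fin n → ℕ) (a : Fin n → ℕ) (Q Q' : Set (Fin n → ℕ))
    (h1 : ∀ v, a + v ∈ Q' ↔ v ∈ Q) (h2 : ∀ u ∈ Q', ∃ v, a + v = u) :
    Ph β Q' = PowerSeries.C (PowerSeries.X ^ (sz a)) * PowerSeries.X ^ (bt β a) * Ph β Q := by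
  classical
  have hsz : ∀ v, sz (a + v) = sz a + sz v := fun v => by
    simp [sz, Finset.sum_add_distrib]
  have hbt : ∀ v, bt β (a + v) = bt β a + bt β v := fun v => by
    simp [bt, Finset.sum_add_distrib, mul_add]
  ext M d
  rw [mul_assoc, PowerSeries.coeff_C_mul, PowerSeries.coeff_X_pow_mul', PowerSeries.coeff_X_pow_mul',
    coeff_Ph]
  by_cases hd : sz a ≤ d
  · rw [if_pos hd]
    by_cases hM : bt β a ≤ M
    · rw [if_pos hM, coeff_Ph]
      have h3 : ∑ v ∈ T β (M - bt β a) (d - sz a), Q.indicator (fun _ => (1 : ℤ)) v =
          ∑ u ∈ (T β (M - bt β a) (d - sz a)).image (fun v => a + v),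
            Q'.indicator (fun _ => (1 : ℤ)) u := by
        rw [Finset.sum_image (fun x _ y _ hxy => add_right_injective a hxy)]
        refine Finset.sum_congr rfl fun v _ => ?_
        by_cases hv : v ∈ Q
        · rw [Set.indicator_of_mem hv, Set.indicator_of_mem ((h1 v).mpr hv)]
        · rw [Set.indicator_of_notMem hv, Set.indicator_of_notMem (fun h' => hv ((h1 v).mp h'))]
      rw [h3]
      symm
      · refine Finset.sum_subset ?_ ?_
        · intro u hu
          obtain ⟨v, hv, rfl⟩ := Finset.mem_image.mp hu
          rw [mem_T] at hv ⊢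
          rw [hsz, hbt]
          omega
        · intro u hu hu'
          rw [Set.indicator_of_notMem]
          intro hQ
          obtain ⟨v, rfl⟩ := h2 u hQ
          apply hu'
          rw [mem_T, hsz, hbt] at hu
          refine Finset.mem_image.mpr ⟨v, mem_T.mpr ?_, rfl⟩
          omega
    · rw [if_neg hM, map_zero]
      refine Finset.sum_eq_zero fun u hu => ?_
      rw [Set.indicator_of_notMem]
      intro hQ
      obtain ⟨v, rfl⟩ := h2 u hQ
      rw [mem_T, hbt] at hu
      omega
  · rw [if_neg hd]
    refine Finset.sum_eq_zero fun u hu => ?_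
    rw [Set.indicator_of_notMem]
    intro hQ
    obtain ⟨v, rfl⟩ := h2 u hQ
    rw [mem_T, hsz] at hu
    omega

variable [Fintype ι] [DecidableEq ι]

/-- the induction -/
theorem good_pol (β : Fin n → ℕ) (h : ι → Fin n → ℤ) (κ : Fin n → ι)
    (hκ : ∀ i i', h (κ i) i' = if i' = i then 1 else 0) :
    ∀ (k : ℕ) (E : Finset ι), (Eᶜ).card = k → ∀ d : ι → ℤ, (∀ i, 0 ≤ d (κ i)) →
      Gd β h E (Ph β (Pol h d E)) := by
  classical
  intro k
  induction k using Nat.strong_induction_on with
  | _ k ih =>
  intro E hE d hd
  by_cases hC : ∀ a : Fin n → ℕ, (∀ j, 0 ≤ LN h j a) → (∀ j ∈ E, LN h j a = 0) → a = 0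
  · exact good_finite β h E (finite_of_cone h d E hC)
  push Not at hC
  obtain ⟨a, ha⟩ := exists_allowed h E κ hκ (by
    obtain ⟨a, h1, h2, h3⟩ := hC
    exact ⟨a, h3, h1, h2⟩)
  -- the shifted right hand sides
  let D : Finset ι → ι → ℤ := fun J j => if j ∈ J then d j + LN h j a else d j
  have hDd : ∀ J j, d j ≤ D J j := by
    intro J j
    simp only [D]
    split_ifs
    · have := ha.2.1 j; omega
    · exact le_rfl
  have hDE : ∀ J, ∀ j ∈ E, D J j = d j := by
    intro J j hj
    simp only [D]
    split_ifs
    · rw [ha.2.2.1 j hj]; omega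
    · rfl
  -- one step
  have step : ∀ (J : Finset ι) (j : ι), j ∉ J →
        Ph β (Pol h (D J) E) = Ph β (Pol h (D (insert j J)) E) +
          ∑ c ∈ Finset.Ico (d j) (d j + LN h j a),
            Ph β (Pol h (Function.update (D J) j c) (insert j E)) := by
    intro J j hj
    ext M dd
    rw [map_add, map_add, map_sum, map_sum, coeff_Ph, coeff_Ph]
    simp_rw [coeff_Ph]
    rw [Finset.sum_comm, ← Finset.sum_add_distrib]
    refine Finset.sum_congr rfl fun u _ => ?_
    have hDj : D J j = d j := by simp [D, hj]
    have hDj' : D (insert j J) j = d j + LN h j a := by simp [D]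
    have hDi : ∀ i, i ≠ j → D (insert j J) i = D J i := by
      intro i hi
      simp [D, Finset.mem_insert, hi]
    by_cases hu : u ∈ Pol h (D J) E
    · rw [Set.indicator_of_mem hu]
      by_cases hlt : LN h j u < d j + LN h j a
      · -- exactly one c
        have h1 : u ∉ Pol h (D (insert j J)) E := by
          intro h'
          have := h'.1 j
          rw [hDj'] at this
          omega
        rw [Set.indicator_of_notMem h1, zero_add]
        rw [Finset.sum_eq_single (LN h j u)]
        · rw [Set.indicator_of_mem]
          refine ⟨fun i => ?_, fun i hi => ?_⟩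
          · by_cases hij : i = j
            · subst hij; simp
            · rw [Function.update_of_ne hij]; exact hu.1 i
          · by_cases hij : i = j
            · subst hij; simp
            · rw [Function.update_of_ne hij]
              exact hu.2 i ((Finset.mem_insert.mp hi).resolve_left hij)
        · intro c _ hc
          rw [Set.indicator_of_notMem]
          intro h'
          have := h'.2 j (Finset.mem_insert_self _ _)
          rw [Function.update_self] at this
          exact hc this.symm
        · intro h'
          exfalso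
          apply h'
          rw [Finset.mem_Ico]
          have := hu.1 j
          rw [hDj] at this
          exact ⟨this, hlt⟩
      · have h1 : u ∈ Pol h (D (insert j J)) E := by
          refine ⟨fun i => ?_, fun i hi => ?_⟩
          · by_cases hij : i = j
            · subst hij; rw [hDj']; omega
            · rw [hDi i hij]; exact hu.1 i
          · rw [hDE _ i hi, ← hDE J i hi]; exact hu.2 i hi
        rw [Set.indicator_of_mem h1, Finset.sum_eq_zero, add_zero]
        intro c hc
        rw [Set.indicator_of_notMem]
        intro h'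
        have := h'.2 j (Finset.mem_insert_self _ _)
        rw [Function.update_self] at this
        rw [Finset.mem_Ico] at hc
        omega
    · rw [Set.indicator_of_notMem hu]
      have h1 : u ∉ Pol h (D (insert j J)) E := by
        intro h'
        apply hu
        refine ⟨fun i => ?_, fun i hi => ?_⟩
        · by_cases hij : i = j
          · subst hij
            have := h'.1 i
            rw [hDj'] at this
            rw [hDj]
            have := ha.2.1 i
            omega
          · rw [← hDi i hij]; exact h'.1 i
        · rw [hDE _ i hi, ← hDE (insert j J) i hi]; exact h'.2 i hi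
      rw [Set.indicator_of_notMem h1, zero_add, Finset.sum_eq_zero]
      intro c hc
      rw [Set.indicator_of_notMem]
      intro h'
      apply hu
      rw [Finset.mem_Ico] at hc
      refine ⟨fun i => ?_, fun i hi => ?_⟩
      · by_cases hij : i = j
        · subst hij
          have := h'.1 i
          rw [Function.update_self] at this
          rw [hDj]
          omega
        · have := h'.1 i
          rw [Function.update_of_ne hij] at this
          exact this
      · by_cases hij : i = j
        · subst hij
          -- then `LN h i a = 0` and the interval is empty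
          have := ha.2.2.1 i hi
          omega
        · have := h'.2 i (Finset.mem_insert_of_mem hi)
          rw [Function.update_of_ne hij] at this
          exact this
  -- the difference is good
  have diff : ∀ J : Finset ι, ∃ G : PowerSeries (PowerSeries ℤ), Gd β h E G ∧
      Ph β (Pol h d E) = Ph β (Pol h (D J) E) + G := by
    intro J
    induction J using Finset.induction_on with
    | empty =>
      refine ⟨0, Gd.zero, ?_⟩
      have : D ∅ = d := by funext j; simp [D]
      rw [this, add_zero]
    | insert j J hj ihJ =>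
      obtain ⟨G, hG, hGe⟩ := ihJ
      refine ⟨G + ∑ c ∈ Finset.Ico (d j) (d j + LN h j a),
            Ph β (Pol h (Function.update (D J) j c) (insert j E)), hG.add (Gd.sum _ _ ?_), ?_⟩
      · intro c hc
        rw [Finset.mem_Ico] at hc
        have hjE : j ∉ E := by
          intro hjE
          have := ha.2.2.1 j hjE
          omega
        refine Gd.mono (Finset.subset_insert j E) (ih _ ?_ (insert j E) rfl _ ?_)
        · rw [← hE]
          apply Finset.card_lt_card
          rw [Finset.compl_ssubset_compl]
          exact Finset.ssubset_insert hjE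
        · intro i
          by_cases hij : κ i = j
          · rw [hij, Function.update_self]
            have := hd i
            rw [hij] at this
            omega
          · rw [Function.update_of_ne hij]
            exact le_trans (hd i) (hDd J _)
      · rw [hGe, step J j hj]
        ring
  obtain ⟨G, hG, hGe⟩ := diff Finset.univ
  -- the shift
  have shift : Ph β (Pol h (D Finset.univ) E) =
      PowerSeries.C (PowerSeries.X ^ (sz a)) * PowerSeries.X ^ (bt β a) * Ph β (Pol h d E) := by
    apply Ph_shift
    · intro v
      constructor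
      · intro h'
        refine ⟨fun j => ?_, fun j hj => ?_⟩
        · have := h'.1 j
          rw [LN_add] at this
          simp only [D, Finset.mem_univ, if_true] at this
          omega
        · have := h'.2 j hj
          rw [LN_add] at this
          simp only [D, Finset.mem_univ, if_true] at this
          omega
      · intro h'
        refine ⟨fun j => ?_, fun j hj => ?_⟩
        · have := h'.1 j
          rw [LN_add]
          simp only [D, Finset.mem_univ, if_true]
          omega
        · have := h'.2 j hj
          rw [LN_add]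
          simp only [D, Finset.mem_univ, if_true]
          omega
    · intro u hu'
      have hle : ∀ i, a i ≤ u i := by
        intro i
        have h1 := hu'.1 (κ i)
        simp only [D, Finset.mem_univ, if_true] at h1
        have h2 : ∀ v : Fin n → ℕ, LN h (κ i) v = v i := by
          intro v
          simp [LN, hκ]
        rw [h2, h2] at h1
        have := hd i
        omega
      refine ⟨fun i => u i - a i, ?_⟩
      funext i
      simp only [Pi.add_apply]
      have := hle i
      omega
  refine Gd.ray ha ?_
  have : fac β a * Ph β (Pol h d E) = G := by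
    rw [shift] at hGe
    unfold fac
    linear_combination hGe
  rw [this]
  exact hG

theorem main : Pool.Agent.W428.MOT.S_ZCF := by
  classical
  intro n r h d E β
  let h' : Fin r ⊕ Fin n → Fin n → ℤ := Sum.elim h (fun i i' => if i' = i then 1 else 0)
  let d' : Fin r ⊕ Fin n → ℤ := Sum.elim d 0
  let E' : Finset (Fin r ⊕ Fin n) := E.map Function.Embedding.inl
  obtain ⟨l, P, hl, hP⟩ := good_pol β h' (fun i => Sum.inr i) (fun i i' => rfl) _ E' rfl d'
    (fun i => le_rfl)
  have hLN1 : ∀ (j : Fin r) (u : Fin n → ℕ), LN h' (Sum.inl j) u = ∑ i, h j i * (u i : ℤ) :=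
    fun j u => rfl
  have hLN2 : ∀ (i : Fin n) (u : Fin n → ℕ), LN h' (Sum.inr i) u = u i := by
    intro i u
    simp [LN, h']
  have hPol : Pol h' d' E' = poly h d E := by
    ext u
    constructor
    · intro hu
      refine ⟨fun j => ?_, fun j hj => ?_⟩
      · have := hu.1 (Sum.inl j)
        rw [hLN1] at this
        exact this
      · have := hu.2 (Sum.inl j) (by simp [E', hj])
        rw [hLN1] at this
        exact this.symm
    · intro hu
      refine ⟨fun j => ?_, fun j hj => ?_⟩
      · rcases j with j | i
        · rw [hLN1]; exact hu.1 j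
        · rw [hLN2]; simp [d']
      · obtain ⟨j0, hj0, rfl⟩ := Finset.mem_map.mp hj
        show LN h' (Sum.inl j0) u = d' (Sum.inl j0)
        rw [hLN1]; exact (hu.2 j0 hj0).symm
  refine ⟨l, P, fun a ha => ?_, ?_⟩
  · obtain ⟨h1, h2, h3, h4⟩ := hl a ha
    refine ⟨h1, fun j => ?_, fun j hj => ?_, ?_⟩
    · have := h2 (Sum.inl j)
      rw [hLN1] at this
      exact this
    · have := h3 (Sum.inl j) (by simp [E', hj])
      rw [hLN1] at this
      exact this
    · intro u hu1 hu2
      -- common denominator
      let B : ℕ := ∏ i, (u i).den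
      have hB : B ≠ 0 := Finset.prod_ne_zero_iff.mpr fun i _ => (u i).den_nz
      have hex : ∀ i, ∃ z : ℤ, (z : ℚ) = B * u i := by
        intro i
        obtain ⟨c, hc⟩ := Finset.dvd_prod_of_mem (fun i => (u i).den) (Finset.mem_univ i)
        refine ⟨c * (u i).num, ?_⟩
        have h5 : (B : ℚ) = (u i).den * c := by
          have : B = (u i).den * c := hc
          rw [this]; push_cast; ring
        rw [h5]
        push_cast
        have := Rat.mul_den_eq_num (u i)
        calc (c : ℚ) * (u i).num = c * (u i * (u i).den) := by rw [this]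
          _ = _ := by ring
      choose z hz using hex
      obtain ⟨p, qq, hqq, hpq⟩ := h4 z (by
        intro j hj
        have key : (L h' j z : ℚ) = B * ∑ i, (h' j i : ℚ) * u i := by
          simp only [L]
          push_cast
          rw [Finset.mul_sum]
          refine Finset.sum_congr rfl fun i _ => ?_
          rw [hz]; ring
        rcases j with j | i
        · have h6 := hu2 j (by rw [hLN1] at hj; exact hj)
          have h7 : (L h' (Sum.inl j) z : ℚ) = 0 := by
            rw [key]
            show (B : ℚ) * ∑ i, (h j i : ℚ) * u i = 0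
            rw [h6, mul_zero]
          exact_mod_cast h7
        · have h6 := hu1 i (by rw [hLN2] at hj; exact_mod_cast hj)
          have h7 : (L h' (Sum.inr i) z : ℚ) = 0 := by
            rw [key]
            simp [h', h6]
          exact_mod_cast h7)
      refine ⟨(p : ℚ) / (qq * B), fun i => ?_⟩
      have h8 : (qq : ℚ) * (B * u i) = p * a i := by
        rw [← hz]; exact_mod_cast hpq i
      have hq0 : (qq : ℚ) ≠ 0 := by exact_mod_cast hqq
      have hB0 : (B : ℚ) ≠ 0 := by exact_mod_cast hB
      field_simp
      linear_combination h8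
  · rw [hPol] at hP
    exact hP

end Pool.Agent.W230.MTZCF
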